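import Pool.Agent.Helper59.GC.Def

/-!
MP_8ee768_co, project TH-Y', stage S: check of the table `gC`, part 1.
-/

set_option autoImplicit false
set_option maxRecDepth 100000

namespace Pool.Agent.Helper59.GC

open Pool.Agent.Helper59.TY

theorem t1_0 : tieR gC iG 2600 100 = true := by decide +kernel

theorem t1_1 : tieR gC iG 2700 100 = true := by decide +kernel

theorem t1_2 : tieR gC iG 2800 100 = true := by decide +kernel

theorem t1_3 : tieR gC iG 2900 100 = true := by decide +kernel

theorem t1_4 : tieR gC iG 3000 100 = true := by decide +kernel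

theorem t1_5 : tieR gC iG 3100 100 = true := by decide +kernel

theorem t1_6 : tieR gC iG 3200 100 = true := by decide +kernel

theorem t1_7 : tieR gC iG 3300 100 = true := by decide +kernel

theorem t1_8 : tieR gC iG 3400 100 = true := by decide +kernel

theorem t1_9 : tieR gC iG 3500 100 = true := by decide +kernel

theorem t1_10 : tieR gC iG 3600 100 = true := by decide +kernel

theorem t1_11 : tieR gC iG 3700 100 = true := by decide +kernel

theorem t1_12 : tieR gC iG 3800 100 = true := by decide +kernel

theorem t1_13 : tieR gC iG 3900 100 = true := by decide +kernel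

theorem t1_14 : tieR gC iG 4000 100 = true := by decide +kernel

theorem t1_15 : tieR gC iG 4100 100 = true := by decide +kernel

theorem t1_16 : tieR gC iG 4200 100 = true := by decide +kernel

theorem t1_17 : tieR gC iG 4300 100 = true := by decide +kernel

theorem t1_18 : tieR gC iG 4400 100 = true := by decide +kernel

theorem t1_19 : tieR gC iG 4500 100 = true := by decide +kernel

theorem t1_20 : tieR gC iG 4600 100 = true := by decide +kernel

theorem t1_21 : tieR gC iG 4700 100 = true := by decide +kernel

theorem t1_22 : tieR gC iG 4800 100 = true := by decide +kernel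

theorem t1_23 : tieR gC iG 4900 100 = true := by decide +kernel

theorem t1_24 : tieR gC iG 5000 100 = true := by decide +kernel

theorem t1_25 : tieR gC iG 5100 100 = true := by decide +kernel

theorem tied1 : Tied 2600 2600 := by
  have h0 : Tied 2600 100 := Tied.mk t1_0
  have h1 : Tied 2600 200 := h0.add (Tied.mk t1_1) rfl rfl
  have h2 : Tied 2600 300 := h1.add (Tied.mk t1_2) rfl rfl
  have h3 : Tied 2600 400 := h2.add (Tied.mk t1_3) rfl rfl
  have h4 : Tied 2600 500 := h3.add (Tied.mk t1_4) rfl rfl
  have h5 : Tied 2600 600 := h4.add (Tied.mk t1_5) rfl rfl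
  have h6 : Tied 2600 700 := h5.add (Tied.mk t1_6) rfl rfl
  have h7 : Tied 2600 800 := h6.add (Tied.mk t1_7) rfl rfl
  have h8 : Tied 2600 900 := h7.add (Tied.mk t1_8) rfl rfl
  have h9 : Tied 2600 1000 := h8.add (Tied.mk t1_9) rfl rfl
  have h10 : Tied 2600 1100 := h9.add (Tied.mk t1_10) rfl rfl
  have h11 : Tied 2600 1200 := h10.add (Tied.mk t1_11) rfl rfl
  have h12 : Tied 2600 1300 := h11.add (Tied.mk t1_12) rfl rfl
  have h13 : Tied 2600 1400 := h12.add (Tied.mk t1_13) rfl rfl
  have h14 : Tied 2600 1500 := h13.add (Tied.mk t1_14) rfl rfl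
  have h15 : Tied 2600 1600 := h14.add (Tied.mk t1_15) rfl rfl
  have h16 : Tied 2600 1700 := h15.add (Tied.mk t1_16) rfl rfl
  have h17 : Tied 2600 1800 := h16.add (Tied.mk t1_17) rfl rfl
  have h18 : Tied 2600 1900 := h17.add (Tied.mk t1_18) rfl rfl
  have h19 : Tied 2600 2000 := h18.add (Tied.mk t1_19) rfl rfl
  have h20 : Tied 2600 2100 := h19.add (Tied.mk t1_20) rfl rfl
  have h21 : Tied 2600 2200 := h20.add (Tied.mk t1_21) rfl rfl
  have h22 : Tied 2600 2300 := h21.add (Tied.mk t1_22) rfl rfl
  have h23 : Tied 2600 2400 := h22.add (Tied.mk t1_23) rfl rfl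
  have h24 : Tied 2600 2500 := h23.add (Tied.mk t1_24) rfl rfl
  have h25 : Tied 2600 2600 := h24.add (Tied.mk t1_25) rfl rfl
  exact h25

end Pool.Agent.Helper59.GC
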