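import Pool.Agent.Helper59.GC.Def

/-!
MP_8ee768_co, project TH-Y', stage S: check of the table `gC`, part 2.
-/

set_option autoImplicit false
set_option maxRecDepth 100000

namespace Pool.Agent.Helper59.GC

open Pool.Agent.Helper59.TY

theorem t2_0 : tieR gC iG 5200 100 = true := by decide +kernel

theorem t2_1 : tieR gC iG 5300 100 = true := by decide +kernel

theorem t2_2 : tieR gC iG 5400 100 = true := by decide +kernel

theorem t2_3 : tieR gC iG 5500 100 = true := by decide +kernel

theorem t2_4 : tieR gC iG 5600 100 = true := by decide +kernel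

theorem t2_5 : tieR gC iG 5700 100 = true := by decide +kernel

theorem t2_6 : tieR gC iG 5800 100 = true := by decide +kernel

theorem t2_7 : tieR gC iG 5900 100 = true := by decide +kernel

theorem t2_8 : tieR gC iG 6000 100 = true := by decide +kernel

theorem t2_9 : tieR gC iG 6100 100 = true := by decide +kernel

theorem t2_10 : tieR gC iG 6200 100 = true := by decide +kernel

theorem t2_11 : tieR gC iG 6300 100 = true := by decide +kernel

theorem t2_12 : tieR gC iG 6400 100 = true := by decide +kernel

theorem t2_13 : tieR gC iG 6500 100 = true := by decide +kernel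

theorem t2_14 : tieR gC iG 6600 100 = true := by decide +kernel

theorem t2_15 : tieR gC iG 6700 100 = true := by decide +kernel

theorem t2_16 : tieR gC iG 6800 100 = true := by decide +kernel

theorem t2_17 : tieR gC iG 6900 100 = true := by decide +kernel

theorem t2_18 : tieR gC iG 7000 100 = true := by decide +kernel

theorem t2_19 : tieR gC iG 7100 100 = true := by decide +kernel

theorem t2_20 : tieR gC iG 7200 100 = true := by decide +kernel

theorem t2_21 : tieR gC iG 7300 100 = true := by decide +kernel

theorem t2_22 : tieR gC iG 7400 100 = true := by decide +kernel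

theorem t2_23 : tieR gC iG 7500 100 = true := by decide +kernel

theorem t2_24 : tieR gC iG 7600 100 = true := by decide +kernel

theorem t2_25 : tieR gC iG 7700 100 = true := by decide +kernel

theorem tied2 : Tied 5200 2600 := by
  have h0 : Tied 5200 100 := Tied.mk t2_0
  have h1 : Tied 5200 200 := h0.add (Tied.mk t2_1) rfl rfl
  have h2 : Tied 5200 300 := h1.add (Tied.mk t2_2) rfl rfl
  have h3 : Tied 5200 400 := h2.add (Tied.mk t2_3) rfl rfl
  have h4 : Tied 5200 500 := h3.add (Tied.mk t2_4) rfl rfl
  have h5 : Tied 5200 600 := h4.add (Tied.mk t2_5) rfl rfl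
  have h6 : Tied 5200 700 := h5.add (Tied.mk t2_6) rfl rfl
  have h7 : Tied 5200 800 := h6.add (Tied.mk t2_7) rfl rfl
  have h8 : Tied 5200 900 := h7.add (Tied.mk t2_8) rfl rfl
  have h9 : Tied 5200 1000 := h8.add (Tied.mk t2_9) rfl rfl
  have h10 : Tied 5200 1100 := h9.add (Tied.mk t2_10) rfl rfl
  have h11 : Tied 5200 1200 := h10.add (Tied.mk t2_11) rfl rfl
  have h12 : Tied 5200 1300 := h11.add (Tied.mk t2_12) rfl rfl
  have h13 : Tied 5200 1400 := h12.add (Tied.mk t2_13) rfl rfl
  have h14 : Tied 5200 1500 := h13.add (Tied.mk t2_14) rfl rfl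
  have h15 : Tied 5200 1600 := h14.add (Tied.mk t2_15) rfl rfl
  have h16 : Tied 5200 1700 := h15.add (Tied.mk t2_16) rfl rfl
  have h17 : Tied 5200 1800 := h16.add (Tied.mk t2_17) rfl rfl
  have h18 : Tied 5200 1900 := h17.add (Tied.mk t2_18) rfl rfl
  have h19 : Tied 5200 2000 := h18.add (Tied.mk t2_19) rfl rfl
  have h20 : Tied 5200 2100 := h19.add (Tied.mk t2_20) rfl rfl
  have h21 : Tied 5200 2200 := h20.add (Tied.mk t2_21) rfl rfl
  have h22 : Tied 5200 2300 := h21.add (Tied.mk t2_22) rfl rfl
  have h23 : Tied 5200 2400 := h22.add (Tied.mk t2_23) rfl rfl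
  have h24 : Tied 5200 2500 := h23.add (Tied.mk t2_24) rfl rfl
  have h25 : Tied 5200 2600 := h24.add (Tied.mk t2_25) rfl rfl
  exact h25

end Pool.Agent.Helper59.GC
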