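import Pool.Agent.Helper59.GC.Def

/-!
MP_8ee768_co, project TH-Y', stage S: check of the table `gC`, part 3.
-/

set_option autoImplicit false
set_option maxRecDepth 100000

namespace Pool.Agent.Helper59.GC

open Pool.Agent.Helper59.TY

theorem t3_0 : tieR gC iG 7800 100 = true := by decide +kernel

theorem t3_1 : tieR gC iG 7900 100 = true := by decide +kernel

theorem t3_2 : tieR gC iG 8000 100 = true := by decide +kernel

theorem t3_3 : tieR gC iG 8100 100 = true := by decide +kernel

theorem t3_4 : tieR gC iG 8200 100 = true := by decide +kernel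

theorem t3_5 : tieR gC iG 8300 100 = true := by decide +kernel

theorem t3_6 : tieR gC iG 8400 100 = true := by decide +kernel

theorem t3_7 : tieR gC iG 8500 100 = true := by decide +kernel

theorem t3_8 : tieR gC iG 8600 100 = true := by decide +kernel

theorem t3_9 : tieR gC iG 8700 100 = true := by decide +kernel

theorem t3_10 : tieR gC iG 8800 100 = true := by decide +kernel

theorem t3_11 : tieR gC iG 8900 100 = true := by decide +kernel

theorem t3_12 : tieR gC iG 9000 100 = true := by decide +kernel

theorem t3_13 : tieR gC iG 9100 100 = true := by decide +kernel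

theorem t3_14 : tieR gC iG 9200 100 = true := by decide +kernel

theorem t3_15 : tieR gC iG 9300 100 = true := by decide +kernel

theorem t3_16 : tieR gC iG 9400 100 = true := by decide +kernel

theorem t3_17 : tieR gC iG 9500 100 = true := by decide +kernel

theorem t3_18 : tieR gC iG 9600 100 = true := by decide +kernel

theorem t3_19 : tieR gC iG 9700 100 = true := by decide +kernel

theorem t3_20 : tieR gC iG 9800 100 = true := by decide +kernel

theorem t3_21 : tieR gC iG 9900 100 = true := by decide +kernel

theorem t3_22 : tieR gC iG 10000 100 = true := by decide +kernel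

theorem t3_23 : tieR gC iG 10100 100 = true := by decide +kernel

theorem t3_24 : tieR gC iG 10200 74 = true := by decide +kernel

theorem tied3 : Tied 7800 2474 := by
  have h0 : Tied 7800 100 := Tied.mk t3_0
  have h1 : Tied 7800 200 := h0.add (Tied.mk t3_1) rfl rfl
  have h2 : Tied 7800 300 := h1.add (Tied.mk t3_2) rfl rfl
  have h3 : Tied 7800 400 := h2.add (Tied.mk t3_3) rfl rfl
  have h4 : Tied 7800 500 := h3.add (Tied.mk t3_4) rfl rfl
  have h5 : Tied 7800 600 := h4.add (Tied.mk t3_5) rfl rfl
  have h6 : Tied 7800 700 := h5.add (Tied.mk t3_6) rfl rfl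
  have h7 : Tied 7800 800 := h6.add (Tied.mk t3_7) rfl rfl
  have h8 : Tied 7800 900 := h7.add (Tied.mk t3_8) rfl rfl
  have h9 : Tied 7800 1000 := h8.add (Tied.mk t3_9) rfl rfl
  have h10 : Tied 7800 1100 := h9.add (Tied.mk t3_10) rfl rfl
  have h11 : Tied 7800 1200 := h10.add (Tied.mk t3_11) rfl rfl
  have h12 : Tied 7800 1300 := h11.add (Tied.mk t3_12) rfl rfl
  have h13 : Tied 7800 1400 := h12.add (Tied.mk t3_13) rfl rfl
  have h14 : Tied 7800 1500 := h13.add (Tied.mk t3_14) rfl rfl
  have h15 : Tied 7800 1600 := h14.add (Tied.mk t3_15) rfl rfl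
  have h16 : Tied 7800 1700 := h15.add (Tied.mk t3_16) rfl rfl
  have h17 : Tied 7800 1800 := h16.add (Tied.mk t3_17) rfl rfl
  have h18 : Tied 7800 1900 := h17.add (Tied.mk t3_18) rfl rfl
  have h19 : Tied 7800 2000 := h18.add (Tied.mk t3_19) rfl rfl
  have h20 : Tied 7800 2100 := h19.add (Tied.mk t3_20) rfl rfl
  have h21 : Tied 7800 2200 := h20.add (Tied.mk t3_21) rfl rfl
  have h22 : Tied 7800 2300 := h21.add (Tied.mk t3_22) rfl rfl
  have h23 : Tied 7800 2400 := h22.add (Tied.mk t3_23) rfl rfl
  have h24 : Tied 7800 2474 := h23.add (Tied.mk t3_24) rfl rfl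
  exact h24

end Pool.Agent.Helper59.GC
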