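import Pool.Agent.Helper59.GC.Tie0
import Pool.Agent.Helper59.GC.Tie1
import Pool.Agent.Helper59.GC.Tie2
import Pool.Agent.Helper59.GC.Tie3

/-!
MP_8ee768_co, project TH-Y', stage S: the table `gC` of the glued types is right.
-/

set_option autoImplicit false

namespace Pool.Agent.Helper59.GC

open Pool.Agent.Helper59.TY

theorem tied_all : ∀ t < 10274, gath (tA (gC t)) (tB (gC t)) = iG t := by
  have h1 : Tied 0 5200 := tied0.add tied1 rfl rfl
  have h2 : Tied 0 7800 := h1.add tied2 rfl rfl
  have h3 : Tied 0 10274 := h2.add tied3 rfl rfl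
  intro t ht
  exact h3 t (Nat.zero_le t) (by omega)

end Pool.Agent.Helper59.GC
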