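import Pool.Agent.Helper59.GC.C00
import Pool.Agent.Helper59.GC.C01
import Pool.Agent.Helper59.GC.C02
import Pool.Agent.Helper59.GC.C03
import Pool.Agent.Helper59.GC.C04
import Pool.Agent.Helper59.GC.C05
import Pool.Agent.Helper59.GC.C06
import Pool.Agent.Helper59.GC.C07
import Pool.Agent.Helper59.GC.C08

/-!
MP_8ee768_co, project TH-Y', stage S: the table of the glued types as cube words. Function tree over
the blocks of 32 types.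
-/

set_option autoImplicit false

namespace Pool.Agent.Helper59.GC

noncomputable def f0 (i : ℕ) : ℕ :=
  @Bool.rec (fun _ => ℕ) s0 s1 (Nat.ble (nat_lit 1) i)

noncomputable def f1 (i : ℕ) : ℕ :=
  @Bool.rec (fun _ => ℕ) s3 s4 (Nat.ble (nat_lit 4) i)

noncomputable def f2 (i : ℕ) : ℕ :=
  @Bool.rec (fun _ => ℕ) s2 (f1 i) (Nat.ble (nat_lit 3) i)

noncomputable def f3 (i : ℕ) : ℕ :=
  @Bool.rec (fun _ => ℕ) (f0 i) (f2 i) (Nat.ble (nat_lit 2) i)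

noncomputable def f4 (i : ℕ) : ℕ :=
  @Bool.rec (fun _ => ℕ) s5 s6 (Nat.ble (nat_lit 6) i)

noncomputable def f5 (i : ℕ) : ℕ :=
  @Bool.rec (fun _ => ℕ) s8 s9 (Nat.ble (nat_lit 9) i)

noncomputable def f6 (i : ℕ) : ℕ :=
  @Bool.rec (fun _ => ℕ) s7 (f5 i) (Nat.ble (nat_lit 8) i)

noncomputable def f7 (i : ℕ) : ℕ :=
  @Bool.rec (fun _ => ℕ) (f4 i) (f6 i) (Nat.ble (nat_lit 7) i)

noncomputable def f8 (i : ℕ) : ℕ :=
  @Bool.rec (fun _ => ℕ) (f3 i) (f7 i) (Nat.ble (nat_lit 5) i)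

noncomputable def f9 (i : ℕ) : ℕ :=
  @Bool.rec (fun _ => ℕ) s10 s11 (Nat.ble (nat_lit 11) i)

noncomputable def f10 (i : ℕ) : ℕ :=
  @Bool.rec (fun _ => ℕ) s13 s14 (Nat.ble (nat_lit 14) i)

noncomputable def f11 (i : ℕ) : ℕ :=
  @Bool.rec (fun _ => ℕ) s12 (f10 i) (Nat.ble (nat_lit 13) i)

noncomputable def f12 (i : ℕ) : ℕ :=
  @Bool.rec (fun _ => ℕ) (f9 i) (f11 i) (Nat.ble (nat_lit 12) i)

noncomputable def f13 (i : ℕ) : ℕ :=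
  @Bool.rec (fun _ => ℕ) s15 s16 (Nat.ble (nat_lit 16) i)

noncomputable def f14 (i : ℕ) : ℕ :=
  @Bool.rec (fun _ => ℕ) s18 s19 (Nat.ble (nat_lit 19) i)

noncomputable def f15 (i : ℕ) : ℕ :=
  @Bool.rec (fun _ => ℕ) s17 (f14 i) (Nat.ble (nat_lit 18) i)

noncomputable def f16 (i : ℕ) : ℕ :=
  @Bool.rec (fun _ => ℕ) (f13 i) (f15 i) (Nat.ble (nat_lit 17) i)

noncomputable def f17 (i : ℕ) : ℕ :=
  @Bool.rec (fun _ => ℕ) (f12 i) (f16 i) (Nat.ble (nat_lit 15) i)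

noncomputable def f18 (i : ℕ) : ℕ :=
  @Bool.rec (fun _ => ℕ) (f8 i) (f17 i) (Nat.ble (nat_lit 10) i)

noncomputable def f19 (i : ℕ) : ℕ :=
  @Bool.rec (fun _ => ℕ) s20 s21 (Nat.ble (nat_lit 21) i)

noncomputable def f20 (i : ℕ) : ℕ :=
  @Bool.rec (fun _ => ℕ) s23 s24 (Nat.ble (nat_lit 24) i)

noncomputable def f21 (i : ℕ) : ℕ :=
  @Bool.rec (fun _ => ℕ) s22 (f20 i) (Nat.ble (nat_lit 23) i)

noncomputable def f22 (i : ℕ) : ℕ :=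
  @Bool.rec (fun _ => ℕ) (f19 i) (f21 i) (Nat.ble (nat_lit 22) i)

noncomputable def f23 (i : ℕ) : ℕ :=
  @Bool.rec (fun _ => ℕ) s25 s26 (Nat.ble (nat_lit 26) i)

noncomputable def f24 (i : ℕ) : ℕ :=
  @Bool.rec (fun _ => ℕ) s28 s29 (Nat.ble (nat_lit 29) i)

noncomputable def f25 (i : ℕ) : ℕ :=
  @Bool.rec (fun _ => ℕ) s27 (f24 i) (Nat.ble (nat_lit 28) i)

noncomputable def f26 (i : ℕ) : ℕ :=
  @Bool.rec (fun _ => ℕ) (f23 i) (f25 i) (Nat.ble (nat_lit 27) i)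

noncomputable def f27 (i : ℕ) : ℕ :=
  @Bool.rec (fun _ => ℕ) (f22 i) (f26 i) (Nat.ble (nat_lit 25) i)

noncomputable def f28 (i : ℕ) : ℕ :=
  @Bool.rec (fun _ => ℕ) s30 s31 (Nat.ble (nat_lit 31) i)

noncomputable def f29 (i : ℕ) : ℕ :=
  @Bool.rec (fun _ => ℕ) s33 s34 (Nat.ble (nat_lit 34) i)

noncomputable def f30 (i : ℕ) : ℕ :=
  @Bool.rec (fun _ => ℕ) s32 (f29 i) (Nat.ble (nat_lit 33) i)

noncomputable def f31 (i : ℕ) : ℕ :=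
  @Bool.rec (fun _ => ℕ) (f28 i) (f30 i) (Nat.ble (nat_lit 32) i)

noncomputable def f32 (i : ℕ) : ℕ :=
  @Bool.rec (fun _ => ℕ) s35 s36 (Nat.ble (nat_lit 36) i)

noncomputable def f33 (i : ℕ) : ℕ :=
  @Bool.rec (fun _ => ℕ) s38 s39 (Nat.ble (nat_lit 39) i)

noncomputable def f34 (i : ℕ) : ℕ :=
  @Bool.rec (fun _ => ℕ) s37 (f33 i) (Nat.ble (nat_lit 38) i)

noncomputable def f35 (i : ℕ) : ℕ :=
  @Bool.rec (fun _ => ℕ) (f32 i) (f34 i) (Nat.ble (nat_lit 37) i)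

noncomputable def f36 (i : ℕ) : ℕ :=
  @Bool.rec (fun _ => ℕ) (f31 i) (f35 i) (Nat.ble (nat_lit 35) i)

noncomputable def f37 (i : ℕ) : ℕ :=
  @Bool.rec (fun _ => ℕ) (f27 i) (f36 i) (Nat.ble (nat_lit 30) i)

noncomputable def f38 (i : ℕ) : ℕ :=
  @Bool.rec (fun _ => ℕ) (f18 i) (f37 i) (Nat.ble (nat_lit 20) i)

noncomputable def f39 (i : ℕ) : ℕ :=
  @Bool.rec (fun _ => ℕ) s40 s41 (Nat.ble (nat_lit 41) i)

noncomputable def f40 (i : ℕ) : ℕ :=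
  @Bool.rec (fun _ => ℕ) s43 s44 (Nat.ble (nat_lit 44) i)

noncomputable def f41 (i : ℕ) : ℕ :=
  @Bool.rec (fun _ => ℕ) s42 (f40 i) (Nat.ble (nat_lit 43) i)

noncomputable def f42 (i : ℕ) : ℕ :=
  @Bool.rec (fun _ => ℕ) (f39 i) (f41 i) (Nat.ble (nat_lit 42) i)

noncomputable def f43 (i : ℕ) : ℕ :=
  @Bool.rec (fun _ => ℕ) s45 s46 (Nat.ble (nat_lit 46) i)

noncomputable def f44 (i : ℕ) : ℕ :=
  @Bool.rec (fun _ => ℕ) s48 s49 (Nat.ble (nat_lit 49) i)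

noncomputable def f45 (i : ℕ) : ℕ :=
  @Bool.rec (fun _ => ℕ) s47 (f44 i) (Nat.ble (nat_lit 48) i)

noncomputable def f46 (i : ℕ) : ℕ :=
  @Bool.rec (fun _ => ℕ) (f43 i) (f45 i) (Nat.ble (nat_lit 47) i)

noncomputable def f47 (i : ℕ) : ℕ :=
  @Bool.rec (fun _ => ℕ) (f42 i) (f46 i) (Nat.ble (nat_lit 45) i)

noncomputable def f48 (i : ℕ) : ℕ :=
  @Bool.rec (fun _ => ℕ) s50 s51 (Nat.ble (nat_lit 51) i)

noncomputable def f49 (i : ℕ) : ℕ :=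
  @Bool.rec (fun _ => ℕ) s53 s54 (Nat.ble (nat_lit 54) i)

noncomputable def f50 (i : ℕ) : ℕ :=
  @Bool.rec (fun _ => ℕ) s52 (f49 i) (Nat.ble (nat_lit 53) i)

noncomputable def f51 (i : ℕ) : ℕ :=
  @Bool.rec (fun _ => ℕ) (f48 i) (f50 i) (Nat.ble (nat_lit 52) i)

noncomputable def f52 (i : ℕ) : ℕ :=
  @Bool.rec (fun _ => ℕ) s55 s56 (Nat.ble (nat_lit 56) i)

noncomputable def f53 (i : ℕ) : ℕ :=
  @Bool.rec (fun _ => ℕ) s58 s59 (Nat.ble (nat_lit 59) i)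

noncomputable def f54 (i : ℕ) : ℕ :=
  @Bool.rec (fun _ => ℕ) s57 (f53 i) (Nat.ble (nat_lit 58) i)

noncomputable def f55 (i : ℕ) : ℕ :=
  @Bool.rec (fun _ => ℕ) (f52 i) (f54 i) (Nat.ble (nat_lit 57) i)

noncomputable def f56 (i : ℕ) : ℕ :=
  @Bool.rec (fun _ => ℕ) (f51 i) (f55 i) (Nat.ble (nat_lit 55) i)

noncomputable def f57 (i : ℕ) : ℕ :=
  @Bool.rec (fun _ => ℕ) (f47 i) (f56 i) (Nat.ble (nat_lit 50) i)

noncomputable def f58 (i : ℕ) : ℕ :=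
  @Bool.rec (fun _ => ℕ) s60 s61 (Nat.ble (nat_lit 61) i)

noncomputable def f59 (i : ℕ) : ℕ :=
  @Bool.rec (fun _ => ℕ) s63 s64 (Nat.ble (nat_lit 64) i)

noncomputable def f60 (i : ℕ) : ℕ :=
  @Bool.rec (fun _ => ℕ) s62 (f59 i) (Nat.ble (nat_lit 63) i)

noncomputable def f61 (i : ℕ) : ℕ :=
  @Bool.rec (fun _ => ℕ) (f58 i) (f60 i) (Nat.ble (nat_lit 62) i)

noncomputable def f62 (i : ℕ) : ℕ :=
  @Bool.rec (fun _ => ℕ) s65 s66 (Nat.ble (nat_lit 66) i)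

noncomputable def f63 (i : ℕ) : ℕ :=
  @Bool.rec (fun _ => ℕ) s68 s69 (Nat.ble (nat_lit 69) i)

noncomputable def f64 (i : ℕ) : ℕ :=
  @Bool.rec (fun _ => ℕ) s67 (f63 i) (Nat.ble (nat_lit 68) i)

noncomputable def f65 (i : ℕ) : ℕ :=
  @Bool.rec (fun _ => ℕ) (f62 i) (f64 i) (Nat.ble (nat_lit 67) i)

noncomputable def f66 (i : ℕ) : ℕ :=
  @Bool.rec (fun _ => ℕ) (f61 i) (f65 i) (Nat.ble (nat_lit 65) i)

noncomputable def f67 (i : ℕ) : ℕ :=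
  @Bool.rec (fun _ => ℕ) s70 s71 (Nat.ble (nat_lit 71) i)

noncomputable def f68 (i : ℕ) : ℕ :=
  @Bool.rec (fun _ => ℕ) s73 s74 (Nat.ble (nat_lit 74) i)

noncomputable def f69 (i : ℕ) : ℕ :=
  @Bool.rec (fun _ => ℕ) s72 (f68 i) (Nat.ble (nat_lit 73) i)

noncomputable def f70 (i : ℕ) : ℕ :=
  @Bool.rec (fun _ => ℕ) (f67 i) (f69 i) (Nat.ble (nat_lit 72) i)

noncomputable def f71 (i : ℕ) : ℕ :=
  @Bool.rec (fun _ => ℕ) s75 s76 (Nat.ble (nat_lit 76) i)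

noncomputable def f72 (i : ℕ) : ℕ :=
  @Bool.rec (fun _ => ℕ) s78 s79 (Nat.ble (nat_lit 79) i)

noncomputable def f73 (i : ℕ) : ℕ :=
  @Bool.rec (fun _ => ℕ) s77 (f72 i) (Nat.ble (nat_lit 78) i)

noncomputable def f74 (i : ℕ) : ℕ :=
  @Bool.rec (fun _ => ℕ) (f71 i) (f73 i) (Nat.ble (nat_lit 77) i)

noncomputable def f75 (i : ℕ) : ℕ :=
  @Bool.rec (fun _ => ℕ) (f70 i) (f74 i) (Nat.ble (nat_lit 75) i)

noncomputable def f76 (i : ℕ) : ℕ :=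
  @Bool.rec (fun _ => ℕ) (f66 i) (f75 i) (Nat.ble (nat_lit 70) i)

noncomputable def f77 (i : ℕ) : ℕ :=
  @Bool.rec (fun _ => ℕ) (f57 i) (f76 i) (Nat.ble (nat_lit 60) i)

noncomputable def f78 (i : ℕ) : ℕ :=
  @Bool.rec (fun _ => ℕ) (f38 i) (f77 i) (Nat.ble (nat_lit 40) i)

noncomputable def f79 (i : ℕ) : ℕ :=
  @Bool.rec (fun _ => ℕ) s80 s81 (Nat.ble (nat_lit 81) i)

noncomputable def f80 (i : ℕ) : ℕ :=
  @Bool.rec (fun _ => ℕ) s83 s84 (Nat.ble (nat_lit 84) i)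

noncomputable def f81 (i : ℕ) : ℕ :=
  @Bool.rec (fun _ => ℕ) s82 (f80 i) (Nat.ble (nat_lit 83) i)

noncomputable def f82 (i : ℕ) : ℕ :=
  @Bool.rec (fun _ => ℕ) (f79 i) (f81 i) (Nat.ble (nat_lit 82) i)

noncomputable def f83 (i : ℕ) : ℕ :=
  @Bool.rec (fun _ => ℕ) s85 s86 (Nat.ble (nat_lit 86) i)

noncomputable def f84 (i : ℕ) : ℕ :=
  @Bool.rec (fun _ => ℕ) s88 s89 (Nat.ble (nat_lit 89) i)

noncomputable def f85 (i : ℕ) : ℕ :=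
  @Bool.rec (fun _ => ℕ) s87 (f84 i) (Nat.ble (nat_lit 88) i)

noncomputable def f86 (i : ℕ) : ℕ :=
  @Bool.rec (fun _ => ℕ) (f83 i) (f85 i) (Nat.ble (nat_lit 87) i)

noncomputable def f87 (i : ℕ) : ℕ :=
  @Bool.rec (fun _ => ℕ) (f82 i) (f86 i) (Nat.ble (nat_lit 85) i)

noncomputable def f88 (i : ℕ) : ℕ :=
  @Bool.rec (fun _ => ℕ) s90 s91 (Nat.ble (nat_lit 91) i)

noncomputable def f89 (i : ℕ) : ℕ :=
  @Bool.rec (fun _ => ℕ) s93 s94 (Nat.ble (nat_lit 94) i)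

noncomputable def f90 (i : ℕ) : ℕ :=
  @Bool.rec (fun _ => ℕ) s92 (f89 i) (Nat.ble (nat_lit 93) i)

noncomputable def f91 (i : ℕ) : ℕ :=
  @Bool.rec (fun _ => ℕ) (f88 i) (f90 i) (Nat.ble (nat_lit 92) i)

noncomputable def f92 (i : ℕ) : ℕ :=
  @Bool.rec (fun _ => ℕ) s95 s96 (Nat.ble (nat_lit 96) i)

noncomputable def f93 (i : ℕ) : ℕ :=
  @Bool.rec (fun _ => ℕ) s98 s99 (Nat.ble (nat_lit 99) i)

noncomputable def f94 (i : ℕ) : ℕ :=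
  @Bool.rec (fun _ => ℕ) s97 (f93 i) (Nat.ble (nat_lit 98) i)

noncomputable def f95 (i : ℕ) : ℕ :=
  @Bool.rec (fun _ => ℕ) (f92 i) (f94 i) (Nat.ble (nat_lit 97) i)

noncomputable def f96 (i : ℕ) : ℕ :=
  @Bool.rec (fun _ => ℕ) (f91 i) (f95 i) (Nat.ble (nat_lit 95) i)

noncomputable def f97 (i : ℕ) : ℕ :=
  @Bool.rec (fun _ => ℕ) (f87 i) (f96 i) (Nat.ble (nat_lit 90) i)

noncomputable def f98 (i : ℕ) : ℕ :=
  @Bool.rec (fun _ => ℕ) s100 s101 (Nat.ble (nat_lit 101) i)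

noncomputable def f99 (i : ℕ) : ℕ :=
  @Bool.rec (fun _ => ℕ) s103 s104 (Nat.ble (nat_lit 104) i)

noncomputable def f100 (i : ℕ) : ℕ :=
  @Bool.rec (fun _ => ℕ) s102 (f99 i) (Nat.ble (nat_lit 103) i)

noncomputable def f101 (i : ℕ) : ℕ :=
  @Bool.rec (fun _ => ℕ) (f98 i) (f100 i) (Nat.ble (nat_lit 102) i)

noncomputable def f102 (i : ℕ) : ℕ :=
  @Bool.rec (fun _ => ℕ) s105 s106 (Nat.ble (nat_lit 106) i)

noncomputable def f103 (i : ℕ) : ℕ :=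
  @Bool.rec (fun _ => ℕ) s108 s109 (Nat.ble (nat_lit 109) i)

noncomputable def f104 (i : ℕ) : ℕ :=
  @Bool.rec (fun _ => ℕ) s107 (f103 i) (Nat.ble (nat_lit 108) i)

noncomputable def f105 (i : ℕ) : ℕ :=
  @Bool.rec (fun _ => ℕ) (f102 i) (f104 i) (Nat.ble (nat_lit 107) i)

noncomputable def f106 (i : ℕ) : ℕ :=
  @Bool.rec (fun _ => ℕ) (f101 i) (f105 i) (Nat.ble (nat_lit 105) i)

noncomputable def f107 (i : ℕ) : ℕ :=
  @Bool.rec (fun _ => ℕ) s110 s111 (Nat.ble (nat_lit 111) i)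

noncomputable def f108 (i : ℕ) : ℕ :=
  @Bool.rec (fun _ => ℕ) s113 s114 (Nat.ble (nat_lit 114) i)

noncomputable def f109 (i : ℕ) : ℕ :=
  @Bool.rec (fun _ => ℕ) s112 (f108 i) (Nat.ble (nat_lit 113) i)

noncomputable def f110 (i : ℕ) : ℕ :=
  @Bool.rec (fun _ => ℕ) (f107 i) (f109 i) (Nat.ble (nat_lit 112) i)

noncomputable def f111 (i : ℕ) : ℕ :=
  @Bool.rec (fun _ => ℕ) s115 s116 (Nat.ble (nat_lit 116) i)

noncomputable def f112 (i : ℕ) : ℕ :=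
  @Bool.rec (fun _ => ℕ) s118 s119 (Nat.ble (nat_lit 119) i)

noncomputable def f113 (i : ℕ) : ℕ :=
  @Bool.rec (fun _ => ℕ) s117 (f112 i) (Nat.ble (nat_lit 118) i)

noncomputable def f114 (i : ℕ) : ℕ :=
  @Bool.rec (fun _ => ℕ) (f111 i) (f113 i) (Nat.ble (nat_lit 117) i)

noncomputable def f115 (i : ℕ) : ℕ :=
  @Bool.rec (fun _ => ℕ) (f110 i) (f114 i) (Nat.ble (nat_lit 115) i)

noncomputable def f116 (i : ℕ) : ℕ :=
  @Bool.rec (fun _ => ℕ) (f106 i) (f115 i) (Nat.ble (nat_lit 110) i)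

noncomputable def f117 (i : ℕ) : ℕ :=
  @Bool.rec (fun _ => ℕ) (f97 i) (f116 i) (Nat.ble (nat_lit 100) i)

noncomputable def f118 (i : ℕ) : ℕ :=
  @Bool.rec (fun _ => ℕ) s120 s121 (Nat.ble (nat_lit 121) i)

noncomputable def f119 (i : ℕ) : ℕ :=
  @Bool.rec (fun _ => ℕ) s123 s124 (Nat.ble (nat_lit 124) i)

noncomputable def f120 (i : ℕ) : ℕ :=
  @Bool.rec (fun _ => ℕ) s122 (f119 i) (Nat.ble (nat_lit 123) i)

noncomputable def f121 (i : ℕ) : ℕ :=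
  @Bool.rec (fun _ => ℕ) (f118 i) (f120 i) (Nat.ble (nat_lit 122) i)

noncomputable def f122 (i : ℕ) : ℕ :=
  @Bool.rec (fun _ => ℕ) s125 s126 (Nat.ble (nat_lit 126) i)

noncomputable def f123 (i : ℕ) : ℕ :=
  @Bool.rec (fun _ => ℕ) s128 s129 (Nat.ble (nat_lit 129) i)

noncomputable def f124 (i : ℕ) : ℕ :=
  @Bool.rec (fun _ => ℕ) s127 (f123 i) (Nat.ble (nat_lit 128) i)

noncomputable def f125 (i : ℕ) : ℕ :=
  @Bool.rec (fun _ => ℕ) (f122 i) (f124 i) (Nat.ble (nat_lit 127) i)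

noncomputable def f126 (i : ℕ) : ℕ :=
  @Bool.rec (fun _ => ℕ) (f121 i) (f125 i) (Nat.ble (nat_lit 125) i)

noncomputable def f127 (i : ℕ) : ℕ :=
  @Bool.rec (fun _ => ℕ) s130 s131 (Nat.ble (nat_lit 131) i)

noncomputable def f128 (i : ℕ) : ℕ :=
  @Bool.rec (fun _ => ℕ) s133 s134 (Nat.ble (nat_lit 134) i)

noncomputable def f129 (i : ℕ) : ℕ :=
  @Bool.rec (fun _ => ℕ) s132 (f128 i) (Nat.ble (nat_lit 133) i)

noncomputable def f130 (i : ℕ) : ℕ :=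
  @Bool.rec (fun _ => ℕ) (f127 i) (f129 i) (Nat.ble (nat_lit 132) i)

noncomputable def f131 (i : ℕ) : ℕ :=
  @Bool.rec (fun _ => ℕ) s135 s136 (Nat.ble (nat_lit 136) i)

noncomputable def f132 (i : ℕ) : ℕ :=
  @Bool.rec (fun _ => ℕ) s138 s139 (Nat.ble (nat_lit 139) i)

noncomputable def f133 (i : ℕ) : ℕ :=
  @Bool.rec (fun _ => ℕ) s137 (f132 i) (Nat.ble (nat_lit 138) i)

noncomputable def f134 (i : ℕ) : ℕ :=
  @Bool.rec (fun _ => ℕ) (f131 i) (f133 i) (Nat.ble (nat_lit 137) i)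

noncomputable def f135 (i : ℕ) : ℕ :=
  @Bool.rec (fun _ => ℕ) (f130 i) (f134 i) (Nat.ble (nat_lit 135) i)

noncomputable def f136 (i : ℕ) : ℕ :=
  @Bool.rec (fun _ => ℕ) (f126 i) (f135 i) (Nat.ble (nat_lit 130) i)

noncomputable def f137 (i : ℕ) : ℕ :=
  @Bool.rec (fun _ => ℕ) s140 s141 (Nat.ble (nat_lit 141) i)

noncomputable def f138 (i : ℕ) : ℕ :=
  @Bool.rec (fun _ => ℕ) s143 s144 (Nat.ble (nat_lit 144) i)

noncomputable def f139 (i : ℕ) : ℕ :=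
  @Bool.rec (fun _ => ℕ) s142 (f138 i) (Nat.ble (nat_lit 143) i)

noncomputable def f140 (i : ℕ) : ℕ :=
  @Bool.rec (fun _ => ℕ) (f137 i) (f139 i) (Nat.ble (nat_lit 142) i)

noncomputable def f141 (i : ℕ) : ℕ :=
  @Bool.rec (fun _ => ℕ) s145 s146 (Nat.ble (nat_lit 146) i)

noncomputable def f142 (i : ℕ) : ℕ :=
  @Bool.rec (fun _ => ℕ) s148 s149 (Nat.ble (nat_lit 149) i)

noncomputable def f143 (i : ℕ) : ℕ :=
  @Bool.rec (fun _ => ℕ) s147 (f142 i) (Nat.ble (nat_lit 148) i)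

noncomputable def f144 (i : ℕ) : ℕ :=
  @Bool.rec (fun _ => ℕ) (f141 i) (f143 i) (Nat.ble (nat_lit 147) i)

noncomputable def f145 (i : ℕ) : ℕ :=
  @Bool.rec (fun _ => ℕ) (f140 i) (f144 i) (Nat.ble (nat_lit 145) i)

noncomputable def f146 (i : ℕ) : ℕ :=
  @Bool.rec (fun _ => ℕ) s150 s151 (Nat.ble (nat_lit 151) i)

noncomputable def f147 (i : ℕ) : ℕ :=
  @Bool.rec (fun _ => ℕ) s153 s154 (Nat.ble (nat_lit 154) i)

noncomputable def f148 (i : ℕ) : ℕ :=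
  @Bool.rec (fun _ => ℕ) s152 (f147 i) (Nat.ble (nat_lit 153) i)

noncomputable def f149 (i : ℕ) : ℕ :=
  @Bool.rec (fun _ => ℕ) (f146 i) (f148 i) (Nat.ble (nat_lit 152) i)

noncomputable def f150 (i : ℕ) : ℕ :=
  @Bool.rec (fun _ => ℕ) s156 s157 (Nat.ble (nat_lit 157) i)

noncomputable def f151 (i : ℕ) : ℕ :=
  @Bool.rec (fun _ => ℕ) s155 (f150 i) (Nat.ble (nat_lit 156) i)

noncomputable def f152 (i : ℕ) : ℕ :=
  @Bool.rec (fun _ => ℕ) s159 s160 (Nat.ble (nat_lit 160) i)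

noncomputable def f153 (i : ℕ) : ℕ :=
  @Bool.rec (fun _ => ℕ) s158 (f152 i) (Nat.ble (nat_lit 159) i)

noncomputable def f154 (i : ℕ) : ℕ :=
  @Bool.rec (fun _ => ℕ) (f151 i) (f153 i) (Nat.ble (nat_lit 158) i)

noncomputable def f155 (i : ℕ) : ℕ :=
  @Bool.rec (fun _ => ℕ) (f149 i) (f154 i) (Nat.ble (nat_lit 155) i)

noncomputable def f156 (i : ℕ) : ℕ :=
  @Bool.rec (fun _ => ℕ) (f145 i) (f155 i) (Nat.ble (nat_lit 150) i)

noncomputable def f157 (i : ℕ) : ℕ :=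
  @Bool.rec (fun _ => ℕ) (f136 i) (f156 i) (Nat.ble (nat_lit 140) i)

noncomputable def f158 (i : ℕ) : ℕ :=
  @Bool.rec (fun _ => ℕ) (f117 i) (f157 i) (Nat.ble (nat_lit 120) i)

noncomputable def f159 (i : ℕ) : ℕ :=
  @Bool.rec (fun _ => ℕ) (f78 i) (f158 i) (Nat.ble (nat_lit 80) i)

noncomputable def f160 (i : ℕ) : ℕ :=
  @Bool.rec (fun _ => ℕ) s161 s162 (Nat.ble (nat_lit 162) i)

noncomputable def f161 (i : ℕ) : ℕ :=
  @Bool.rec (fun _ => ℕ) s164 s165 (Nat.ble (nat_lit 165) i)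

noncomputable def f162 (i : ℕ) : ℕ :=
  @Bool.rec (fun _ => ℕ) s163 (f161 i) (Nat.ble (nat_lit 164) i)

noncomputable def f163 (i : ℕ) : ℕ :=
  @Bool.rec (fun _ => ℕ) (f160 i) (f162 i) (Nat.ble (nat_lit 163) i)

noncomputable def f164 (i : ℕ) : ℕ :=
  @Bool.rec (fun _ => ℕ) s166 s167 (Nat.ble (nat_lit 167) i)

noncomputable def f165 (i : ℕ) : ℕ :=
  @Bool.rec (fun _ => ℕ) s169 s170 (Nat.ble (nat_lit 170) i)

noncomputable def f166 (i : ℕ) : ℕ :=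
  @Bool.rec (fun _ => ℕ) s168 (f165 i) (Nat.ble (nat_lit 169) i)

noncomputable def f167 (i : ℕ) : ℕ :=
  @Bool.rec (fun _ => ℕ) (f164 i) (f166 i) (Nat.ble (nat_lit 168) i)

noncomputable def f168 (i : ℕ) : ℕ :=
  @Bool.rec (fun _ => ℕ) (f163 i) (f167 i) (Nat.ble (nat_lit 166) i)

noncomputable def f169 (i : ℕ) : ℕ :=
  @Bool.rec (fun _ => ℕ) s171 s172 (Nat.ble (nat_lit 172) i)

noncomputable def f170 (i : ℕ) : ℕ :=
  @Bool.rec (fun _ => ℕ) s174 s175 (Nat.ble (nat_lit 175) i)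

noncomputable def f171 (i : ℕ) : ℕ :=
  @Bool.rec (fun _ => ℕ) s173 (f170 i) (Nat.ble (nat_lit 174) i)

noncomputable def f172 (i : ℕ) : ℕ :=
  @Bool.rec (fun _ => ℕ) (f169 i) (f171 i) (Nat.ble (nat_lit 173) i)

noncomputable def f173 (i : ℕ) : ℕ :=
  @Bool.rec (fun _ => ℕ) s176 s177 (Nat.ble (nat_lit 177) i)

noncomputable def f174 (i : ℕ) : ℕ :=
  @Bool.rec (fun _ => ℕ) s179 s180 (Nat.ble (nat_lit 180) i)

noncomputable def f175 (i : ℕ) : ℕ :=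
  @Bool.rec (fun _ => ℕ) s178 (f174 i) (Nat.ble (nat_lit 179) i)

noncomputable def f176 (i : ℕ) : ℕ :=
  @Bool.rec (fun _ => ℕ) (f173 i) (f175 i) (Nat.ble (nat_lit 178) i)

noncomputable def f177 (i : ℕ) : ℕ :=
  @Bool.rec (fun _ => ℕ) (f172 i) (f176 i) (Nat.ble (nat_lit 176) i)

noncomputable def f178 (i : ℕ) : ℕ :=
  @Bool.rec (fun _ => ℕ) (f168 i) (f177 i) (Nat.ble (nat_lit 171) i)

noncomputable def f179 (i : ℕ) : ℕ :=
  @Bool.rec (fun _ => ℕ) s181 s182 (Nat.ble (nat_lit 182) i)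

noncomputable def f180 (i : ℕ) : ℕ :=
  @Bool.rec (fun _ => ℕ) s184 s185 (Nat.ble (nat_lit 185) i)

noncomputable def f181 (i : ℕ) : ℕ :=
  @Bool.rec (fun _ => ℕ) s183 (f180 i) (Nat.ble (nat_lit 184) i)

noncomputable def f182 (i : ℕ) : ℕ :=
  @Bool.rec (fun _ => ℕ) (f179 i) (f181 i) (Nat.ble (nat_lit 183) i)

noncomputable def f183 (i : ℕ) : ℕ :=
  @Bool.rec (fun _ => ℕ) s186 s187 (Nat.ble (nat_lit 187) i)

noncomputable def f184 (i : ℕ) : ℕ :=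
  @Bool.rec (fun _ => ℕ) s189 s190 (Nat.ble (nat_lit 190) i)

noncomputable def f185 (i : ℕ) : ℕ :=
  @Bool.rec (fun _ => ℕ) s188 (f184 i) (Nat.ble (nat_lit 189) i)

noncomputable def f186 (i : ℕ) : ℕ :=
  @Bool.rec (fun _ => ℕ) (f183 i) (f185 i) (Nat.ble (nat_lit 188) i)

noncomputable def f187 (i : ℕ) : ℕ :=
  @Bool.rec (fun _ => ℕ) (f182 i) (f186 i) (Nat.ble (nat_lit 186) i)

noncomputable def f188 (i : ℕ) : ℕ :=
  @Bool.rec (fun _ => ℕ) s191 s192 (Nat.ble (nat_lit 192) i)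

noncomputable def f189 (i : ℕ) : ℕ :=
  @Bool.rec (fun _ => ℕ) s194 s195 (Nat.ble (nat_lit 195) i)

noncomputable def f190 (i : ℕ) : ℕ :=
  @Bool.rec (fun _ => ℕ) s193 (f189 i) (Nat.ble (nat_lit 194) i)

noncomputable def f191 (i : ℕ) : ℕ :=
  @Bool.rec (fun _ => ℕ) (f188 i) (f190 i) (Nat.ble (nat_lit 193) i)

noncomputable def f192 (i : ℕ) : ℕ :=
  @Bool.rec (fun _ => ℕ) s196 s197 (Nat.ble (nat_lit 197) i)

noncomputable def f193 (i : ℕ) : ℕ :=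
  @Bool.rec (fun _ => ℕ) s199 s200 (Nat.ble (nat_lit 200) i)

noncomputable def f194 (i : ℕ) : ℕ :=
  @Bool.rec (fun _ => ℕ) s198 (f193 i) (Nat.ble (nat_lit 199) i)

noncomputable def f195 (i : ℕ) : ℕ :=
  @Bool.rec (fun _ => ℕ) (f192 i) (f194 i) (Nat.ble (nat_lit 198) i)

noncomputable def f196 (i : ℕ) : ℕ :=
  @Bool.rec (fun _ => ℕ) (f191 i) (f195 i) (Nat.ble (nat_lit 196) i)

noncomputable def f197 (i : ℕ) : ℕ :=
  @Bool.rec (fun _ => ℕ) (f187 i) (f196 i) (Nat.ble (nat_lit 191) i)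

noncomputable def f198 (i : ℕ) : ℕ :=
  @Bool.rec (fun _ => ℕ) (f178 i) (f197 i) (Nat.ble (nat_lit 181) i)

noncomputable def f199 (i : ℕ) : ℕ :=
  @Bool.rec (fun _ => ℕ) s201 s202 (Nat.ble (nat_lit 202) i)

noncomputable def f200 (i : ℕ) : ℕ :=
  @Bool.rec (fun _ => ℕ) s204 s205 (Nat.ble (nat_lit 205) i)

noncomputable def f201 (i : ℕ) : ℕ :=
  @Bool.rec (fun _ => ℕ) s203 (f200 i) (Nat.ble (nat_lit 204) i)

noncomputable def f202 (i : ℕ) : ℕ :=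
  @Bool.rec (fun _ => ℕ) (f199 i) (f201 i) (Nat.ble (nat_lit 203) i)

noncomputable def f203 (i : ℕ) : ℕ :=
  @Bool.rec (fun _ => ℕ) s206 s207 (Nat.ble (nat_lit 207) i)

noncomputable def f204 (i : ℕ) : ℕ :=
  @Bool.rec (fun _ => ℕ) s209 s210 (Nat.ble (nat_lit 210) i)

noncomputable def f205 (i : ℕ) : ℕ :=
  @Bool.rec (fun _ => ℕ) s208 (f204 i) (Nat.ble (nat_lit 209) i)

noncomputable def f206 (i : ℕ) : ℕ :=
  @Bool.rec (fun _ => ℕ) (f203 i) (f205 i) (Nat.ble (nat_lit 208) i)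

noncomputable def f207 (i : ℕ) : ℕ :=
  @Bool.rec (fun _ => ℕ) (f202 i) (f206 i) (Nat.ble (nat_lit 206) i)

noncomputable def f208 (i : ℕ) : ℕ :=
  @Bool.rec (fun _ => ℕ) s211 s212 (Nat.ble (nat_lit 212) i)

noncomputable def f209 (i : ℕ) : ℕ :=
  @Bool.rec (fun _ => ℕ) s214 s215 (Nat.ble (nat_lit 215) i)

noncomputable def f210 (i : ℕ) : ℕ :=
  @Bool.rec (fun _ => ℕ) s213 (f209 i) (Nat.ble (nat_lit 214) i)

noncomputable def f211 (i : ℕ) : ℕ :=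
  @Bool.rec (fun _ => ℕ) (f208 i) (f210 i) (Nat.ble (nat_lit 213) i)

noncomputable def f212 (i : ℕ) : ℕ :=
  @Bool.rec (fun _ => ℕ) s216 s217 (Nat.ble (nat_lit 217) i)

noncomputable def f213 (i : ℕ) : ℕ :=
  @Bool.rec (fun _ => ℕ) s219 s220 (Nat.ble (nat_lit 220) i)

noncomputable def f214 (i : ℕ) : ℕ :=
  @Bool.rec (fun _ => ℕ) s218 (f213 i) (Nat.ble (nat_lit 219) i)

noncomputable def f215 (i : ℕ) : ℕ :=
  @Bool.rec (fun _ => ℕ) (f212 i) (f214 i) (Nat.ble (nat_lit 218) i)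

noncomputable def f216 (i : ℕ) : ℕ :=
  @Bool.rec (fun _ => ℕ) (f211 i) (f215 i) (Nat.ble (nat_lit 216) i)

noncomputable def f217 (i : ℕ) : ℕ :=
  @Bool.rec (fun _ => ℕ) (f207 i) (f216 i) (Nat.ble (nat_lit 211) i)

noncomputable def f218 (i : ℕ) : ℕ :=
  @Bool.rec (fun _ => ℕ) s221 s222 (Nat.ble (nat_lit 222) i)

noncomputable def f219 (i : ℕ) : ℕ :=
  @Bool.rec (fun _ => ℕ) s224 s225 (Nat.ble (nat_lit 225) i)

noncomputable def f220 (i : ℕ) : ℕ :=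
  @Bool.rec (fun _ => ℕ) s223 (f219 i) (Nat.ble (nat_lit 224) i)

noncomputable def f221 (i : ℕ) : ℕ :=
  @Bool.rec (fun _ => ℕ) (f218 i) (f220 i) (Nat.ble (nat_lit 223) i)

noncomputable def f222 (i : ℕ) : ℕ :=
  @Bool.rec (fun _ => ℕ) s226 s227 (Nat.ble (nat_lit 227) i)

noncomputable def f223 (i : ℕ) : ℕ :=
  @Bool.rec (fun _ => ℕ) s229 s230 (Nat.ble (nat_lit 230) i)

noncomputable def f224 (i : ℕ) : ℕ :=
  @Bool.rec (fun _ => ℕ) s228 (f223 i) (Nat.ble (nat_lit 229) i)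

noncomputable def f225 (i : ℕ) : ℕ :=
  @Bool.rec (fun _ => ℕ) (f222 i) (f224 i) (Nat.ble (nat_lit 228) i)

noncomputable def f226 (i : ℕ) : ℕ :=
  @Bool.rec (fun _ => ℕ) (f221 i) (f225 i) (Nat.ble (nat_lit 226) i)

noncomputable def f227 (i : ℕ) : ℕ :=
  @Bool.rec (fun _ => ℕ) s231 s232 (Nat.ble (nat_lit 232) i)

noncomputable def f228 (i : ℕ) : ℕ :=
  @Bool.rec (fun _ => ℕ) s234 s235 (Nat.ble (nat_lit 235) i)

noncomputable def f229 (i : ℕ) : ℕ :=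
  @Bool.rec (fun _ => ℕ) s233 (f228 i) (Nat.ble (nat_lit 234) i)

noncomputable def f230 (i : ℕ) : ℕ :=
  @Bool.rec (fun _ => ℕ) (f227 i) (f229 i) (Nat.ble (nat_lit 233) i)

noncomputable def f231 (i : ℕ) : ℕ :=
  @Bool.rec (fun _ => ℕ) s236 s237 (Nat.ble (nat_lit 237) i)

noncomputable def f232 (i : ℕ) : ℕ :=
  @Bool.rec (fun _ => ℕ) s239 s240 (Nat.ble (nat_lit 240) i)

noncomputable def f233 (i : ℕ) : ℕ :=
  @Bool.rec (fun _ => ℕ) s238 (f232 i) (Nat.ble (nat_lit 239) i)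

noncomputable def f234 (i : ℕ) : ℕ :=
  @Bool.rec (fun _ => ℕ) (f231 i) (f233 i) (Nat.ble (nat_lit 238) i)

noncomputable def f235 (i : ℕ) : ℕ :=
  @Bool.rec (fun _ => ℕ) (f230 i) (f234 i) (Nat.ble (nat_lit 236) i)

noncomputable def f236 (i : ℕ) : ℕ :=
  @Bool.rec (fun _ => ℕ) (f226 i) (f235 i) (Nat.ble (nat_lit 231) i)

noncomputable def f237 (i : ℕ) : ℕ :=
  @Bool.rec (fun _ => ℕ) (f217 i) (f236 i) (Nat.ble (nat_lit 221) i)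

noncomputable def f238 (i : ℕ) : ℕ :=
  @Bool.rec (fun _ => ℕ) (f198 i) (f237 i) (Nat.ble (nat_lit 201) i)

noncomputable def f239 (i : ℕ) : ℕ :=
  @Bool.rec (fun _ => ℕ) s241 s242 (Nat.ble (nat_lit 242) i)

noncomputable def f240 (i : ℕ) : ℕ :=
  @Bool.rec (fun _ => ℕ) s244 s245 (Nat.ble (nat_lit 245) i)

noncomputable def f241 (i : ℕ) : ℕ :=
  @Bool.rec (fun _ => ℕ) s243 (f240 i) (Nat.ble (nat_lit 244) i)

noncomputable def f242 (i : ℕ) : ℕ :=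
  @Bool.rec (fun _ => ℕ) (f239 i) (f241 i) (Nat.ble (nat_lit 243) i)

noncomputable def f243 (i : ℕ) : ℕ :=
  @Bool.rec (fun _ => ℕ) s246 s247 (Nat.ble (nat_lit 247) i)

noncomputable def f244 (i : ℕ) : ℕ :=
  @Bool.rec (fun _ => ℕ) s249 s250 (Nat.ble (nat_lit 250) i)

noncomputable def f245 (i : ℕ) : ℕ :=
  @Bool.rec (fun _ => ℕ) s248 (f244 i) (Nat.ble (nat_lit 249) i)

noncomputable def f246 (i : ℕ) : ℕ :=
  @Bool.rec (fun _ => ℕ) (f243 i) (f245 i) (Nat.ble (nat_lit 248) i)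

noncomputable def f247 (i : ℕ) : ℕ :=
  @Bool.rec (fun _ => ℕ) (f242 i) (f246 i) (Nat.ble (nat_lit 246) i)

noncomputable def f248 (i : ℕ) : ℕ :=
  @Bool.rec (fun _ => ℕ) s251 s252 (Nat.ble (nat_lit 252) i)

noncomputable def f249 (i : ℕ) : ℕ :=
  @Bool.rec (fun _ => ℕ) s254 s255 (Nat.ble (nat_lit 255) i)

noncomputable def f250 (i : ℕ) : ℕ :=
  @Bool.rec (fun _ => ℕ) s253 (f249 i) (Nat.ble (nat_lit 254) i)

noncomputable def f251 (i : ℕ) : ℕ :=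
  @Bool.rec (fun _ => ℕ) (f248 i) (f250 i) (Nat.ble (nat_lit 253) i)

noncomputable def f252 (i : ℕ) : ℕ :=
  @Bool.rec (fun _ => ℕ) s256 s257 (Nat.ble (nat_lit 257) i)

noncomputable def f253 (i : ℕ) : ℕ :=
  @Bool.rec (fun _ => ℕ) s259 s260 (Nat.ble (nat_lit 260) i)

noncomputable def f254 (i : ℕ) : ℕ :=
  @Bool.rec (fun _ => ℕ) s258 (f253 i) (Nat.ble (nat_lit 259) i)

noncomputable def f255 (i : ℕ) : ℕ :=
  @Bool.rec (fun _ => ℕ) (f252 i) (f254 i) (Nat.ble (nat_lit 258) i)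

noncomputable def f256 (i : ℕ) : ℕ :=
  @Bool.rec (fun _ => ℕ) (f251 i) (f255 i) (Nat.ble (nat_lit 256) i)

noncomputable def f257 (i : ℕ) : ℕ :=
  @Bool.rec (fun _ => ℕ) (f247 i) (f256 i) (Nat.ble (nat_lit 251) i)

noncomputable def f258 (i : ℕ) : ℕ :=
  @Bool.rec (fun _ => ℕ) s261 s262 (Nat.ble (nat_lit 262) i)

noncomputable def f259 (i : ℕ) : ℕ :=
  @Bool.rec (fun _ => ℕ) s264 s265 (Nat.ble (nat_lit 265) i)

noncomputable def f260 (i : ℕ) : ℕ :=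
  @Bool.rec (fun _ => ℕ) s263 (f259 i) (Nat.ble (nat_lit 264) i)

noncomputable def f261 (i : ℕ) : ℕ :=
  @Bool.rec (fun _ => ℕ) (f258 i) (f260 i) (Nat.ble (nat_lit 263) i)

noncomputable def f262 (i : ℕ) : ℕ :=
  @Bool.rec (fun _ => ℕ) s266 s267 (Nat.ble (nat_lit 267) i)

noncomputable def f263 (i : ℕ) : ℕ :=
  @Bool.rec (fun _ => ℕ) s269 s270 (Nat.ble (nat_lit 270) i)

noncomputable def f264 (i : ℕ) : ℕ :=
  @Bool.rec (fun _ => ℕ) s268 (f263 i) (Nat.ble (nat_lit 269) i)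

noncomputable def f265 (i : ℕ) : ℕ :=
  @Bool.rec (fun _ => ℕ) (f262 i) (f264 i) (Nat.ble (nat_lit 268) i)

noncomputable def f266 (i : ℕ) : ℕ :=
  @Bool.rec (fun _ => ℕ) (f261 i) (f265 i) (Nat.ble (nat_lit 266) i)

noncomputable def f267 (i : ℕ) : ℕ :=
  @Bool.rec (fun _ => ℕ) s271 s272 (Nat.ble (nat_lit 272) i)

noncomputable def f268 (i : ℕ) : ℕ :=
  @Bool.rec (fun _ => ℕ) s274 s275 (Nat.ble (nat_lit 275) i)

noncomputable def f269 (i : ℕ) : ℕ :=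
  @Bool.rec (fun _ => ℕ) s273 (f268 i) (Nat.ble (nat_lit 274) i)

noncomputable def f270 (i : ℕ) : ℕ :=
  @Bool.rec (fun _ => ℕ) (f267 i) (f269 i) (Nat.ble (nat_lit 273) i)

noncomputable def f271 (i : ℕ) : ℕ :=
  @Bool.rec (fun _ => ℕ) s276 s277 (Nat.ble (nat_lit 277) i)

noncomputable def f272 (i : ℕ) : ℕ :=
  @Bool.rec (fun _ => ℕ) s279 s280 (Nat.ble (nat_lit 280) i)

noncomputable def f273 (i : ℕ) : ℕ :=
  @Bool.rec (fun _ => ℕ) s278 (f272 i) (Nat.ble (nat_lit 279) i)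

noncomputable def f274 (i : ℕ) : ℕ :=
  @Bool.rec (fun _ => ℕ) (f271 i) (f273 i) (Nat.ble (nat_lit 278) i)

noncomputable def f275 (i : ℕ) : ℕ :=
  @Bool.rec (fun _ => ℕ) (f270 i) (f274 i) (Nat.ble (nat_lit 276) i)

noncomputable def f276 (i : ℕ) : ℕ :=
  @Bool.rec (fun _ => ℕ) (f266 i) (f275 i) (Nat.ble (nat_lit 271) i)

noncomputable def f277 (i : ℕ) : ℕ :=
  @Bool.rec (fun _ => ℕ) (f257 i) (f276 i) (Nat.ble (nat_lit 261) i)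

noncomputable def f278 (i : ℕ) : ℕ :=
  @Bool.rec (fun _ => ℕ) s281 s282 (Nat.ble (nat_lit 282) i)

noncomputable def f279 (i : ℕ) : ℕ :=
  @Bool.rec (fun _ => ℕ) s284 s285 (Nat.ble (nat_lit 285) i)

noncomputable def f280 (i : ℕ) : ℕ :=
  @Bool.rec (fun _ => ℕ) s283 (f279 i) (Nat.ble (nat_lit 284) i)

noncomputable def f281 (i : ℕ) : ℕ :=
  @Bool.rec (fun _ => ℕ) (f278 i) (f280 i) (Nat.ble (nat_lit 283) i)

noncomputable def f282 (i : ℕ) : ℕ :=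
  @Bool.rec (fun _ => ℕ) s286 s287 (Nat.ble (nat_lit 287) i)

noncomputable def f283 (i : ℕ) : ℕ :=
  @Bool.rec (fun _ => ℕ) s289 s290 (Nat.ble (nat_lit 290) i)

noncomputable def f284 (i : ℕ) : ℕ :=
  @Bool.rec (fun _ => ℕ) s288 (f283 i) (Nat.ble (nat_lit 289) i)

noncomputable def f285 (i : ℕ) : ℕ :=
  @Bool.rec (fun _ => ℕ) (f282 i) (f284 i) (Nat.ble (nat_lit 288) i)

noncomputable def f286 (i : ℕ) : ℕ :=
  @Bool.rec (fun _ => ℕ) (f281 i) (f285 i) (Nat.ble (nat_lit 286) i)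

noncomputable def f287 (i : ℕ) : ℕ :=
  @Bool.rec (fun _ => ℕ) s291 s292 (Nat.ble (nat_lit 292) i)

noncomputable def f288 (i : ℕ) : ℕ :=
  @Bool.rec (fun _ => ℕ) s294 s295 (Nat.ble (nat_lit 295) i)

noncomputable def f289 (i : ℕ) : ℕ :=
  @Bool.rec (fun _ => ℕ) s293 (f288 i) (Nat.ble (nat_lit 294) i)

noncomputable def f290 (i : ℕ) : ℕ :=
  @Bool.rec (fun _ => ℕ) (f287 i) (f289 i) (Nat.ble (nat_lit 293) i)

noncomputable def f291 (i : ℕ) : ℕ :=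
  @Bool.rec (fun _ => ℕ) s296 s297 (Nat.ble (nat_lit 297) i)

noncomputable def f292 (i : ℕ) : ℕ :=
  @Bool.rec (fun _ => ℕ) s299 s300 (Nat.ble (nat_lit 300) i)

noncomputable def f293 (i : ℕ) : ℕ :=
  @Bool.rec (fun _ => ℕ) s298 (f292 i) (Nat.ble (nat_lit 299) i)

noncomputable def f294 (i : ℕ) : ℕ :=
  @Bool.rec (fun _ => ℕ) (f291 i) (f293 i) (Nat.ble (nat_lit 298) i)

noncomputable def f295 (i : ℕ) : ℕ :=
  @Bool.rec (fun _ => ℕ) (f290 i) (f294 i) (Nat.ble (nat_lit 296) i)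

noncomputable def f296 (i : ℕ) : ℕ :=
  @Bool.rec (fun _ => ℕ) (f286 i) (f295 i) (Nat.ble (nat_lit 291) i)

noncomputable def f297 (i : ℕ) : ℕ :=
  @Bool.rec (fun _ => ℕ) s301 s302 (Nat.ble (nat_lit 302) i)

noncomputable def f298 (i : ℕ) : ℕ :=
  @Bool.rec (fun _ => ℕ) s304 s305 (Nat.ble (nat_lit 305) i)

noncomputable def f299 (i : ℕ) : ℕ :=
  @Bool.rec (fun _ => ℕ) s303 (f298 i) (Nat.ble (nat_lit 304) i)

noncomputable def f300 (i : ℕ) : ℕ :=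
  @Bool.rec (fun _ => ℕ) (f297 i) (f299 i) (Nat.ble (nat_lit 303) i)

noncomputable def f301 (i : ℕ) : ℕ :=
  @Bool.rec (fun _ => ℕ) s306 s307 (Nat.ble (nat_lit 307) i)

noncomputable def f302 (i : ℕ) : ℕ :=
  @Bool.rec (fun _ => ℕ) s309 s310 (Nat.ble (nat_lit 310) i)

noncomputable def f303 (i : ℕ) : ℕ :=
  @Bool.rec (fun _ => ℕ) s308 (f302 i) (Nat.ble (nat_lit 309) i)

noncomputable def f304 (i : ℕ) : ℕ :=
  @Bool.rec (fun _ => ℕ) (f301 i) (f303 i) (Nat.ble (nat_lit 308) i)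

noncomputable def f305 (i : ℕ) : ℕ :=
  @Bool.rec (fun _ => ℕ) (f300 i) (f304 i) (Nat.ble (nat_lit 306) i)

noncomputable def f306 (i : ℕ) : ℕ :=
  @Bool.rec (fun _ => ℕ) s311 s312 (Nat.ble (nat_lit 312) i)

noncomputable def f307 (i : ℕ) : ℕ :=
  @Bool.rec (fun _ => ℕ) s314 s315 (Nat.ble (nat_lit 315) i)

noncomputable def f308 (i : ℕ) : ℕ :=
  @Bool.rec (fun _ => ℕ) s313 (f307 i) (Nat.ble (nat_lit 314) i)

noncomputable def f309 (i : ℕ) : ℕ :=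
  @Bool.rec (fun _ => ℕ) (f306 i) (f308 i) (Nat.ble (nat_lit 313) i)

noncomputable def f310 (i : ℕ) : ℕ :=
  @Bool.rec (fun _ => ℕ) s317 s318 (Nat.ble (nat_lit 318) i)

noncomputable def f311 (i : ℕ) : ℕ :=
  @Bool.rec (fun _ => ℕ) s316 (f310 i) (Nat.ble (nat_lit 317) i)

noncomputable def f312 (i : ℕ) : ℕ :=
  @Bool.rec (fun _ => ℕ) s320 s321 (Nat.ble (nat_lit 321) i)

noncomputable def f313 (i : ℕ) : ℕ :=
  @Bool.rec (fun _ => ℕ) s319 (f312 i) (Nat.ble (nat_lit 320) i)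

noncomputable def f314 (i : ℕ) : ℕ :=
  @Bool.rec (fun _ => ℕ) (f311 i) (f313 i) (Nat.ble (nat_lit 319) i)

noncomputable def f315 (i : ℕ) : ℕ :=
  @Bool.rec (fun _ => ℕ) (f309 i) (f314 i) (Nat.ble (nat_lit 316) i)

noncomputable def f316 (i : ℕ) : ℕ :=
  @Bool.rec (fun _ => ℕ) (f305 i) (f315 i) (Nat.ble (nat_lit 311) i)

noncomputable def f317 (i : ℕ) : ℕ :=
  @Bool.rec (fun _ => ℕ) (f296 i) (f316 i) (Nat.ble (nat_lit 301) i)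

noncomputable def f318 (i : ℕ) : ℕ :=
  @Bool.rec (fun _ => ℕ) (f277 i) (f317 i) (Nat.ble (nat_lit 281) i)

noncomputable def f319 (i : ℕ) : ℕ :=
  @Bool.rec (fun _ => ℕ) (f238 i) (f318 i) (Nat.ble (nat_lit 241) i)

noncomputable def f320 (i : ℕ) : ℕ :=
  @Bool.rec (fun _ => ℕ) (f159 i) (f319 i) (Nat.ble (nat_lit 161) i)

/-- `2 ^ 2048 - 1` -/
def gmsk : ℕ := nat_lit 0xffffffffffffffffffffffffffffffffffffffffffffffffffffffffffffffffffffffffffffffffffffffffffffffffffffffffffffffffffffffffffffffffffffffffffffffffffffffffffffffffffffffffffffffffffffffffffffffffffffffffffffffffffffffffffffffffffffffffffffffffffffffffffffffffffffffffffffffffffffffffffffffffffffffffffffffffffffffffffffffffffffffffffffffffffffffffffffffffffffffffffffffffffffffffffffffffffffffffffffffffffffffffffffffffffffffffffffffffffffffffffffffffffffffffffffffffffffffffffffffffffffffffffffffffffffffffffffffff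

/-- the leaf `a + 2 ^ 1024 * b` of the type `t` -/
noncomputable def gC (t : ℕ) : ℕ :=
  Nat.land (Nat.shiftRight (f320 (Nat.shiftRight t (nat_lit 5)))
    (Nat.shiftLeft (Nat.land t (nat_lit 31)) (nat_lit 11))) gmsk

end Pool.Agent.Helper59.GC
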