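import Pool.Agent.Helper59.GC.Top
import Pool.Agent.Helper59.GP.Info
import Pool.Agent.Helper59.TY.G8

/-!
MP_8ee768_co, project TH-Y', stage S: statement of the check of the table `gC` against the codes of
helper67's table.
-/

set_option autoImplicit false

namespace Pool.Agent.Helper59.GC

open Pool.Agent.Helper59.TY Pool.Agent.Helper59.GP

/-- the code of a type, `gG t` of helper67 without the rows -/
noncomputable def iG (t : ℕ) : ℕ := Nat.mod (fInfo t) (2 ^ 285)

/-- the table is right for `t0 ≤ t < t0 + n` -/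
def Tied (t0 n : ℕ) : Prop :=
  ∀ t, t0 ≤ t → t < t0 + n → gath (tA (gC t)) (tB (gC t)) = iG t

theorem Tied.mk {t0 n : ℕ} (h : tieR gC iG t0 n = true) : Tied t0 n := tieR_sound h

theorem Tied.add {t0 n t1 m k : ℕ} (h : Tied t0 n) (h' : Tied t1 m) (e : t1 = t0 + n)
    (ek : k = n + m) : Tied t0 k := by
  intro t h1 h2
  by_cases h3 : t < t0 + n
  · exact h t h1 h3
  · exact h' t (by omega) (by omega)

end Pool.Agent.Helper59.GC
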