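import Pool.Agent.Helper59.GC.Def

/-!
MP_8ee768_co, project TH-Y', stage S: check of the table `gC`, part 0.
-/

set_option autoImplicit false
set_option maxRecDepth 100000

namespace Pool.Agent.Helper59.GC

open Pool.Agent.Helper59.TY

theorem t0_0 : tieR gC iG 0 100 = true := by decide +kernel

theorem t0_1 : tieR gC iG 100 100 = true := by decide +kernel

theorem t0_2 : tieR gC iG 200 100 = true := by decide +kernel

theorem t0_3 : tieR gC iG 300 100 = true := by decide +kernel

theorem t0_4 : tieR gC iG 400 100 = true := by decide +kernel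

theorem t0_5 : tieR gC iG 500 100 = true := by decide +kernel

theorem t0_6 : tieR gC iG 600 100 = true := by decide +kernel

theorem t0_7 : tieR gC iG 700 100 = true := by decide +kernel

theorem t0_8 : tieR gC iG 800 100 = true := by decide +kernel

theorem t0_9 : tieR gC iG 900 100 = true := by decide +kernel

theorem t0_10 : tieR gC iG 1000 100 = true := by decide +kernel

theorem t0_11 : tieR gC iG 1100 100 = true := by decide +kernel

theorem t0_12 : tieR gC iG 1200 100 = true := by decide +kernel

theorem t0_13 : tieR gC iG 1300 100 = true := by decide +kernel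

theorem t0_14 : tieR gC iG 1400 100 = true := by decide +kernel

theorem t0_15 : tieR gC iG 1500 100 = true := by decide +kernel

theorem t0_16 : tieR gC iG 1600 100 = true := by decide +kernel

theorem t0_17 : tieR gC iG 1700 100 = true := by decide +kernel

theorem t0_18 : tieR gC iG 1800 100 = true := by decide +kernel

theorem t0_19 : tieR gC iG 1900 100 = true := by decide +kernel

theorem t0_20 : tieR gC iG 2000 100 = true := by decide +kernel

theorem t0_21 : tieR gC iG 2100 100 = true := by decide +kernel

theorem t0_22 : tieR gC iG 2200 100 = true := by decide +kernel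

theorem t0_23 : tieR gC iG 2300 100 = true := by decide +kernel

theorem t0_24 : tieR gC iG 2400 100 = true := by decide +kernel

theorem t0_25 : tieR gC iG 2500 100 = true := by decide +kernel

theorem tied0 : Tied 0 2600 := by
  have h0 : Tied 0 100 := Tied.mk t0_0
  have h1 : Tied 0 200 := h0.add (Tied.mk t0_1) rfl rfl
  have h2 : Tied 0 300 := h1.add (Tied.mk t0_2) rfl rfl
  have h3 : Tied 0 400 := h2.add (Tied.mk t0_3) rfl rfl
  have h4 : Tied 0 500 := h3.add (Tied.mk t0_4) rfl rfl
  have h5 : Tied 0 600 := h4.add (Tied.mk t0_5) rfl rfl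
  have h6 : Tied 0 700 := h5.add (Tied.mk t0_6) rfl rfl
  have h7 : Tied 0 800 := h6.add (Tied.mk t0_7) rfl rfl
  have h8 : Tied 0 900 := h7.add (Tied.mk t0_8) rfl rfl
  have h9 : Tied 0 1000 := h8.add (Tied.mk t0_9) rfl rfl
  have h10 : Tied 0 1100 := h9.add (Tied.mk t0_10) rfl rfl
  have h11 : Tied 0 1200 := h10.add (Tied.mk t0_11) rfl rfl
  have h12 : Tied 0 1300 := h11.add (Tied.mk t0_12) rfl rfl
  have h13 : Tied 0 1400 := h12.add (Tied.mk t0_13) rfl rfl
  have h14 : Tied 0 1500 := h13.add (Tied.mk t0_14) rfl rfl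
  have h15 : Tied 0 1600 := h14.add (Tied.mk t0_15) rfl rfl
  have h16 : Tied 0 1700 := h15.add (Tied.mk t0_16) rfl rfl
  have h17 : Tied 0 1800 := h16.add (Tied.mk t0_17) rfl rfl
  have h18 : Tied 0 1900 := h17.add (Tied.mk t0_18) rfl rfl
  have h19 : Tied 0 2000 := h18.add (Tied.mk t0_19) rfl rfl
  have h20 : Tied 0 2100 := h19.add (Tied.mk t0_20) rfl rfl
  have h21 : Tied 0 2200 := h20.add (Tied.mk t0_21) rfl rfl
  have h22 : Tied 0 2300 := h21.add (Tied.mk t0_22) rfl rfl
  have h23 : Tied 0 2400 := h22.add (Tied.mk t0_23) rfl rfl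
  have h24 : Tied 0 2500 := h23.add (Tied.mk t0_24) rfl rfl
  have h25 : Tied 0 2600 := h24.add (Tied.mk t0_25) rfl rfl
  exact h25

end Pool.Agent.Helper59.GC
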